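import Mathlib

/-!
# MP_4e32c3_nt: tripled copies in the halving-and-difference sequence

`a(1) = 1`, `a(2n) = a(n)`, and `a(2n+1)` is the least positive integer `x` with
`|x - a(2n-1)| = a(n)`.

Main results: `a(3 * 2^k + c) = 3 * a(c)` for `1 ≤ c < 2^k`; `a(n)` is even exactly when `3 ∣ n`;
`a(3 * 2^k - 1) = 1`; `a(2^(2j+1) - 1) = 3^j`, `a(2^(2j+2) - 1) = 2 * 3^j`; the set of the values is
closed under multiplication by 3, so that all positive integers occur if and only if all those not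
divisible by 3 do.
-/

set_option autoImplicit false

namespace Pool.Agent.Results.MP_4e32c3_nt.TripledCopies

/-- `a` is the sequence of the problem: `a 1 = 1`, and for all `n ≥ 1`, `a (2n) = a n` and
`a (2n+1)` is the least positive integer `x` with `|x - a (2n-1)| = a n`. -/
def IsSeq (a : ℕ → ℕ) : Prop :=
  a 1 = 1 ∧ ∀ n : ℕ, 1 ≤ n → a (2 * n) = a n ∧
    IsLeast {x : ℕ | 0 < x ∧ |(x : ℤ) - (a (2 * n - 1) : ℤ)| = (a n : ℤ)} (a (2 * n + 1))

/-- the sequence, by recursion (with the value `0` at `0`) -/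
def seq : ℕ → ℕ
  | 0 => 0
  | 1 => 1
  | n + 2 =>
    if n % 2 = 0 then seq ((n + 2) / 2)
    else if seq ((n + 1) / 2) < seq n then seq n - seq ((n + 1) / 2)
    else seq n + seq ((n + 1) / 2)
decreasing_by all_goals omega

/-- the rules in the form used in the proofs -/
structure Rules (a : ℕ → ℕ) : Prop where
  one : a 1 = 1
  pos : ∀ n, 1 ≤ n → 1 ≤ a n
  dbl : ∀ n, 1 ≤ n → a (2 * n) = a n
  sub : ∀ n, 1 ≤ n → a n < a (2 * n - 1) → a (2 * n + 1) = a (2 * n - 1) - a n
  add : ∀ n, 1 ≤ n → a (2 * n - 1) ≤ a n → a (2 * n + 1) = a (2 * n - 1) + a n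

theorem least_iff {A B x : ℕ} (hB : 1 ≤ B) (hA : 1 ≤ A) :
    IsLeast {x : ℕ | 0 < x ∧ |(x : ℤ) - (A : ℤ)| = (B : ℤ)} x ↔
      x = if B < A then A - B else A + B := by
  constructor
  · rintro ⟨⟨h0, h1⟩, h2⟩
    split_ifs with h
    · have h3 : A - B ∈ {x : ℕ | 0 < x ∧ |(x : ℤ) - (A : ℤ)| = (B : ℤ)} := by
        refine ⟨by omega, ?_⟩
        rw [Nat.cast_sub h.le, abs_of_nonpos] <;> push_cast <;> omega
      have h4 := h2 h3
      rcases abs_eq (by positivity : (0 : ℤ) ≤ (B : ℤ)) |>.1 h1 with h5 | h5 <;> omega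
    · rcases abs_eq (by positivity : (0 : ℤ) ≤ (B : ℤ)) |>.1 h1 with h5 | h5 <;> omega
  · intro hx
    subst hx
    split_ifs with h
    · refine ⟨⟨by omega, ?_⟩, ?_⟩
      · rw [Nat.cast_sub h.le, abs_of_nonpos] <;> push_cast <;> omega
      · rintro y ⟨hy0, hy⟩
        rcases abs_eq (by positivity : (0 : ℤ) ≤ (B : ℤ)) |>.1 hy with h5 | h5 <;> omega
    · refine ⟨⟨by omega, ?_⟩, ?_⟩
      · rw [abs_of_nonneg] <;> push_cast <;> omega
      · rintro y ⟨hy0, hy⟩
        rcases abs_eq (by positivity : (0 : ℤ) ≤ (B : ℤ)) |>.1 hy with h5 | h5 <;> omega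

theorem IsSeq.rules {a : ℕ → ℕ} (h : IsSeq a) : Rules a := by
  obtain ⟨h1, h2⟩ := h
  have pos : ∀ n, 1 ≤ n → 1 ≤ a n := by
    intro n
    induction n using Nat.strong_induction_on with
    | _ n ih =>
      intro hn
      rcases Nat.lt_or_ge n 2 with h | h
      · have : n = 1 := by omega
        rw [this, h1]
      · rcases Nat.even_or_odd' n with ⟨m, rfl | rfl⟩
        · rw [(h2 m (by omega)).1]
          exact ih m (by omega) (by omega)
        · exact (h2 m (by omega)).2.1.1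
  have key : ∀ n, 1 ≤ n → a (2 * n + 1) =
      if a n < a (2 * n - 1) then a (2 * n - 1) - a n else a (2 * n - 1) + a n := by
    intro n hn
    exact (least_iff (pos n hn) (pos (2 * n - 1) (by omega))).1 (h2 n hn).2
  refine ⟨h1, pos, fun n hn => (h2 n hn).1, ?_, ?_⟩
  · intro n hn h
    rw [key n hn, if_pos h]
  · intro n hn h
    rw [key n hn, if_neg (by omega)]

theorem seq_isSeq : IsSeq seq := by
  have hdbl : ∀ n, 1 ≤ n → seq (2 * n) = seq n := by
    intro n hn
    obtain ⟨m, rfl⟩ : ∃ m, n = m + 1 := ⟨n - 1, by omega⟩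
    have : 2 * (m + 1) = 2 * m + 2 := by ring
    rw [this, seq, if_pos (by omega)]
    congr 1
    omega
  have hodd : ∀ n, 1 ≤ n → seq (2 * n + 1) =
      if seq n < seq (2 * n - 1) then seq (2 * n - 1) - seq n else seq (2 * n - 1) + seq n := by
    intro n hn
    obtain ⟨m, rfl⟩ : ∃ m, n = m + 1 := ⟨n - 1, by omega⟩
    have e1 : 2 * (m + 1) + 1 = (2 * m + 1) + 2 := by ring
    have e2 : 2 * (m + 1) - 1 = 2 * m + 1 := by omega
    have e3 : (2 * m + 1 + 1) / 2 = m + 1 := by omega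
    rw [e1, seq, if_neg (by omega), e2, e3]
  have pos : ∀ n, 1 ≤ n → 1 ≤ seq n := by
    intro n
    induction n using Nat.strong_induction_on with
    | _ n ih =>
      intro hn
      rcases Nat.lt_or_ge n 2 with h | h
      · have : n = 1 := by omega
        rw [this, seq]
      · rcases Nat.even_or_odd' n with ⟨m, rfl | rfl⟩
        · rw [hdbl m (by omega)]
          exact ih m (by omega) (by omega)
        · rw [hodd m (by omega)]
          have := ih m (by omega) (by omega)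
          split_ifs with h3 <;> omega
  refine ⟨by rw [seq], fun n hn => ⟨hdbl n hn, ?_⟩⟩
  exact (least_iff (pos n hn) (pos (2 * n - 1) (by omega))).2 (hodd n hn)

variable {a : ℕ → ℕ}

theorem Rules.parity (h : Rules a) : ∀ n, 1 ≤ n → (a n % 2 = 0 ↔ n % 3 = 0) := by
  intro n
  induction n using Nat.strong_induction_on with
  | _ n ih =>
    intro hn
    rcases Nat.lt_or_ge n 2 with h2 | h2
    · have : n = 1 := by omega
      rw [this, h.one]
    · rcases Nat.even_or_odd' n with ⟨m, rfl | rfl⟩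
      · rw [h.dbl m (by omega), ih m (by omega) (by omega)]
        omega
      · have i1 := ih m (by omega) (by omega)
        have i2 := ih (2 * m - 1) (by omega) (by omega)
        have h6 : m % 3 = 0 ∨ m % 3 = 1 ∨ m % 3 = 2 := by omega
        rcases Nat.lt_or_ge (a m) (a (2 * m - 1)) with h3 | h3
        · rw [h.sub m (by omega) h3]
          rcases h6 with h6 | h6 | h6
          · have e1 : (2 * m - 1) % 3 = 2 := by omega
            have e2 : (2 * m + 1) % 3 = 1 := by omega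
            rw [h6] at i1
            rw [e1] at i2
            rw [e2]
            omega
          · have e1 : (2 * m - 1) % 3 = 1 := by omega
            have e2 : (2 * m + 1) % 3 = 0 := by omega
            rw [h6] at i1
            rw [e1] at i2
            rw [e2]
            omega
          · have e1 : (2 * m - 1) % 3 = 0 := by omega
            have e2 : (2 * m + 1) % 3 = 2 := by omega
            rw [h6] at i1
            rw [e1] at i2
            rw [e2]
            omega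
        · rw [h.add m (by omega) h3]
          rcases h6 with h6 | h6 | h6
          · have e1 : (2 * m - 1) % 3 = 2 := by omega
            have e2 : (2 * m + 1) % 3 = 1 := by omega
            rw [h6] at i1
            rw [e1] at i2
            rw [e2]
            omega
          · have e1 : (2 * m - 1) % 3 = 1 := by omega
            have e2 : (2 * m + 1) % 3 = 0 := by omega
            rw [h6] at i1
            rw [e1] at i2
            rw [e2]
            omega
          · have e1 : (2 * m - 1) % 3 = 0 := by omega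
            have e2 : (2 * m + 1) % 3 = 2 := by omega
            rw [h6] at i1
            rw [e1] at i2
            rw [e2]
            omega

theorem Rules.three (h : Rules a) : a 3 = 2 := by
  have := h.add 1 le_rfl (by simp)
  simpa [h.one] using this

theorem Rules.pow_mul (h : Rules a) (m : ℕ) (hm : 1 ≤ m) : ∀ k, a (m * 2 ^ k) = a m := by
  intro k
  induction k with
  | zero => simp
  | succ k ih =>
    have : m * 2 ^ (k + 1) = 2 * (m * 2 ^ k) := by ring
    rw [this, h.dbl _ (Nat.mul_pos hm (by positivity)), ih]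

/-- the bound to the left of `3 * 2 ^ k`, odd distances -/
def P (a : ℕ → ℕ) (k : ℕ) : Prop :=
  ∀ q, 2 * q + 1 < 2 ^ k → a (3 * 2 ^ k - (2 * q + 1)) ≤ 1 + q + q / 3

/-- the tripled copy to the right of `3 * 2 ^ k` -/
def C (a : ℕ → ℕ) (k : ℕ) : Prop := ∀ c, 1 ≤ c → c < 2 ^ k → a (3 * 2 ^ k + c) = 3 * a c

theorem Rules.lemB (h : Rules a) (K : ℕ) (hP : ∀ j ≤ K, P a j) :
    ∀ j ≤ K, ∀ i, 1 ≤ i → i < 2 ^ j → 2 * a (3 * 2 ^ j - i) ≤ i + 1 + (i - 1) / 3 := by
  intro j
  induction j with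
  | zero =>
    intro _ i h1 h2
    simp at h2
    omega
  | succ j ih =>
    intro hj i h1 h2
    rcases Nat.even_or_odd' i with ⟨r, rfl | rfl⟩
    · have e : 3 * 2 ^ (j + 1) - 2 * r = 2 * (3 * 2 ^ j - r) := by
        rw [pow_succ]
        omega
      have h3 : r < 2 ^ j := by
        rw [pow_succ] at h2
        omega
      rw [e, h.dbl _ (by omega)]
      have := ih (by omega) r (by omega) h3
      omega
    · have := hP (j + 1) hj r h2
      omega

theorem Rules.lemM (h : Rules a) (K : ℕ) (hC : ∀ j < K, C a j) :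
    ∀ j, 1 ≤ j → j ≤ K → 2 ≤ a (2 ^ (j + 1) - 1) ∧
      a (2 ^ (j + 1) - 1) ≤ 2 ^ (j - 1) + (2 ^ (j - 1) - 1) / 3 + 1 := by
  intro j
  induction j using Nat.strong_induction_on with
  | _ j ih =>
    intro h1 h2
    rcases Nat.lt_or_ge j 2 with h3 | h3
    · have : j = 1 := by omega
      subst this
      have : (2 : ℕ) ^ (1 + 1) - 1 = 3 := by norm_num
      rw [this, h.three]
      norm_num
    · obtain ⟨i, rfl⟩ : ∃ i, j = i + 2 := ⟨j - 2, by omega⟩
      have e : 2 ^ (i + 2 + 1) - 1 = 3 * 2 ^ (i + 1) + (2 ^ (i + 1) - 1) := by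
        have : 0 < 2 ^ i := by positivity
        rw [pow_succ, pow_succ, pow_succ]
        omega
      have hpos : 0 < 2 ^ i := by positivity
      rw [e, hC (i + 1) (by omega) (2 ^ (i + 1) - 1) (by rw [pow_succ]; omega)
        (by rw [pow_succ]; omega)]
      have e2 : i + 2 - 1 = i + 1 := by omega
      rw [e2]
      rcases Nat.eq_zero_or_pos i with h4 | h4
      · subst h4
        norm_num [h.one]
      · have := ih i (by omega) h4 (by omega)
        obtain ⟨t, rfl⟩ : ∃ t, i = t + 1 := ⟨i - 1, by omega⟩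
        have ht : 0 < 2 ^ t := by positivity
        rw [Nat.add_sub_cancel] at this
        rw [pow_succ (n := t + 1), pow_succ (n := t)] at *
        omega

theorem Rules.main (h : Rules a) : ∀ k, P a k ∧ C a k := by
  intro k
  induction k using Nat.strong_induction_on with
  | _ k ih =>
    rcases Nat.eq_zero_or_pos k with h0 | h0
    · subst h0
      refine ⟨fun q hq => ?_, fun c h1 h2 => ?_⟩
      · simp at hq
      · simp at h2
        omega
    · obtain ⟨k, rfl⟩ : ∃ i, k = i + 1 := ⟨k - 1, by omega⟩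
      have hB := h.lemB k (fun j hj => (ih j (by omega)).1) k le_rfl
      have hM := h.lemM (k + 1) (fun j hj => (ih j hj).2) (k + 1) (by omega) le_rfl
      have hCk := (ih k (by omega)).2
      have hpos : 0 < 2 ^ k := by positivity
      have hP : P a (k + 1) := by
        have key : ∀ d, ∀ q, q + d + 1 = 2 ^ k → a (3 * 2 ^ (k + 1) - (2 * q + 1)) ≤ 1 + q + q / 3 := by
          intro d
          induction d with
          | zero =>
            intro q hq
            have e1 : 3 * 2 ^ (k + 1) - (2 * q + 1) = 2 * 2 ^ (k + 1) + 1 := by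
              rw [pow_succ]
              omega
            have e2 : 2 * 2 ^ (k + 1) - 1 = 2 ^ (k + 1 + 1) - 1 := by
              rw [pow_succ (n := k + 1)]
              omega
            have e3 : a (2 ^ (k + 1)) = 1 := by
              have := h.pow_mul 1 le_rfl (k + 1)
              rw [one_mul] at this
              rw [this, h.one]
            have hs := h.sub (2 ^ (k + 1)) Nat.one_le_two_pow (by rw [e2, e3]; omega)
            rw [e1, hs, e2, e3]
            rw [Nat.add_sub_cancel] at hM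
            omega
          | succ d ihd =>
            intro q hq
            have hv := ihd (q + 1) (by omega)
            have hb := hB (q + 1) (by omega) (by omega)
            set m := 3 * 2 ^ k - (q + 1) with hm
            have e1 : 3 * 2 ^ (k + 1) - (2 * q + 1) = 2 * m + 1 := by
              rw [pow_succ]
              omega
            have e2 : 3 * 2 ^ (k + 1) - (2 * (q + 1) + 1) = 2 * m - 1 := by
              rw [pow_succ]
              omega
            have hm1 : 1 ≤ m := by omega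
            rw [e2] at hv
            rw [e1]
            have p1 := h.parity m hm1
            have p2 := h.parity (2 * m + 1) (by omega)
            have p3 := h.pos m hm1
            have hm3 : m % 3 = 0 ↔ (q + 1) % 3 = 0 := by omega
            have hm4 : (2 * m + 1) % 3 = 0 ↔ (q + 1) % 3 = 2 := by omega
            rcases Nat.lt_or_ge (a m) (a (2 * m - 1)) with h3 | h3
            · rw [h.sub m hm1 h3]
              by_cases h6 : (q + 1) % 3 = 0
              · have : a m % 2 = 0 := p1.2 (hm3.2 h6)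
                omega
              · omega
            · have h5 := h.add m hm1 h3
              rw [hm4] at p2
              omega
        intro q hq
        rw [pow_succ] at hq
        exact key (2 ^ k - 1 - q) q (by omega)
      refine ⟨hP, ?_⟩
      have hodd : ∀ i, i < 2 ^ k → a (3 * 2 ^ (k + 1) + (2 * i + 1)) = 3 * a (2 * i + 1) := by
        intro i
        induction i with
        | zero =>
          intro _
          have h1 := hP 0 (by rw [pow_succ]; omega)
          have h2 := h.pos (3 * 2 ^ (k + 1) - (2 * 0 + 1)) (by rw [pow_succ]; omega)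
          have e1 : 3 * 2 ^ (k + 1) + (2 * 0 + 1) = 2 * (3 * 2 ^ k) + 1 := by rw [pow_succ]; ring
          have e2 : 3 * 2 ^ (k + 1) - (2 * 0 + 1) = 2 * (3 * 2 ^ k) - 1 := by rw [pow_succ]; omega
          have e3 := h.pow_mul 3 (by norm_num) k
          rw [h.three] at e3
          rw [e2] at h1 h2
          rw [e1, h.add (3 * 2 ^ k) (by omega) (by omega), e3]
          simp only [mul_zero, zero_add, h.one]
          omega
        | succ i ihi =>
          intro hi
          have h1 := ihi (by omega)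
          have h2 := hCk (i + 1) (by omega) hi
          have e1 : 3 * 2 ^ (k + 1) + (2 * (i + 1) + 1) = 2 * (3 * 2 ^ k + (i + 1)) + 1 := by
            rw [pow_succ]; ring
          have e2 : 3 * 2 ^ (k + 1) + (2 * i + 1) = 2 * (3 * 2 ^ k + (i + 1)) - 1 := by
            rw [pow_succ]; omega
          have e3 : 2 * i + 1 = 2 * (i + 1) - 1 := by omega
          rw [e2, e3] at h1
          rw [e1]
          rcases Nat.lt_or_ge (a (i + 1)) (a (2 * (i + 1) - 1)) with h3 | h3
          · rw [h.sub (3 * 2 ^ k + (i + 1)) (by omega) (by omega), h.sub (i + 1) (by omega) h3]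
            omega
          · rw [h.add (3 * 2 ^ k + (i + 1)) (by omega) (by omega), h.add (i + 1) (by omega) h3]
            omega
      intro c h1 h2
      rcases Nat.even_or_odd' c with ⟨r, rfl | rfl⟩
      · have e1 : 3 * 2 ^ (k + 1) + 2 * r = 2 * (3 * 2 ^ k + r) := by rw [pow_succ]; ring
        rw [e1, h.dbl _ (by omega), h.dbl r (by omega)]
        exact hCk r (by omega) (by rw [pow_succ] at h2; omega)
      · exact hodd r (by rw [pow_succ] at h2; omega)

theorem Rules.peak (h : Rules a) :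
    ∀ j, a (2 ^ (2 * j + 1) - 1) = 3 ^ j ∧ a (2 ^ (2 * j + 2) - 1) = 2 * 3 ^ j := by
  intro j
  induction j with
  | zero => norm_num [h.one, h.three]
  | succ j ih =>
    have hp : 0 < 2 ^ (2 * j) := by positivity
    have e1 : 2 ^ (2 * (j + 1) + 1) - 1 = 3 * 2 ^ (2 * j + 1) + (2 ^ (2 * j + 1) - 1) := by
      have : (2 : ℕ) ^ (2 * (j + 1) + 1) = 8 * 2 ^ (2 * j) := by ring
      rw [this, pow_succ]
      omega
    have e2 : 2 ^ (2 * (j + 1) + 2) - 1 = 3 * 2 ^ (2 * j + 2) + (2 ^ (2 * j + 2) - 1) := by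
      have h1 : (2 : ℕ) ^ (2 * (j + 1) + 2) = 16 * 2 ^ (2 * j) := by ring
      have h2 : (2 : ℕ) ^ (2 * j + 2) = 4 * 2 ^ (2 * j) := by ring
      rw [h1, h2]
      omega
    have h3 : 2 ^ (2 * j) * 2 = 2 ^ (2 * j + 1) := by ring
    have h4 : 2 ^ (2 * j) * 4 = 2 ^ (2 * j + 2) := by ring
    rw [e1, e2, (h.main (2 * j + 1)).2 _ (by omega) (by omega),
      (h.main (2 * j + 2)).2 _ (by omega) (by omega), ih.1, ih.2]
    constructor <;> ring

theorem Rules.stepSub (h : Rules a) (p n v w : ℕ) (hn : 1 ≤ n) (hp : p = 2 * n - 1)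
    (hv : a p = v) (hw : a n = w) (hlt : w < v) : a (2 * n + 1) = v - w := by
  subst hp
  rw [h.sub n hn (by omega), hv, hw]

theorem Rules.stepAdd (h : Rules a) (p n v w : ℕ) (hn : 1 ≤ n) (hp : p = 2 * n - 1)
    (hv : a p = v) (hw : a n = w) (hle : v ≤ w) : a (2 * n + 1) = v + w := by
  subst hp
  rw [h.add n hn (by omega), hv, hw]

/-- the integer `m` occurs in the sequence -/
def Occurs (a : ℕ → ℕ) (m : ℕ) : Prop := ∃ n, 1 ≤ n ∧ a n = m

theorem Rules.nearAux (h : Rules a) (Q x : ℕ) (hQ : 1 ≤ Q) (hx : 3 ≤ x)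
    (m1 : a (2 * Q - 1) = x) (m2 : a (4 * Q - 1) = 2 * x) (m3 : a (8 * Q - 1) = 3 * x)
    (m4 : a (16 * Q - 1) = 2 * (3 * x)) (m5 : a (32 * Q - 1) = 9 * x)
    (p0 : a Q = 1) (p1 : a (2 * Q) = 1) (p2 : a (4 * Q) = 1) (p3 : a (8 * Q) = 1)
    (p4 : a (16 * Q) = 1) :
    Occurs a (x - 2) ∧ Occurs a (x - 1) ∧ Occurs a x ∧ Occurs a (x + 1) ∧
      Occurs a (x + 2) ∧ Occurs a (2 * x - 1) ∧ Occurs a (2 * x) := by
  have A1 : a (2 * Q + 1) = x - 1 := h.stepSub _ Q _ _ hQ (by omega) m1 p0 (by omega)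
  have A2 : a (2 * (2 * Q) + 1) = 2 * x - 1 :=
    h.stepSub _ (2 * Q) _ _ (by omega) (by omega) m2 p1 (by omega)
  have A3 : a (2 * (4 * Q) + 1) = 3 * x - 1 :=
    h.stepSub _ (4 * Q) _ _ (by omega) (by omega) m3 p2 (by omega)
  have A4 : a (2 * (8 * Q) + 1) = 6 * x - 1 :=
    (h.stepSub _ (8 * Q) _ _ (by omega) (by omega) m4 p3 (by omega)).trans (by omega)
  have A5 : a (2 * (16 * Q) + 1) = 9 * x - 1 :=
    h.stepSub _ (16 * Q) _ _ (by omega) (by omega) m5 p4 (by omega)
  have B2 : a (2 * (2 * Q + 1) + 1) = x :=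
    (h.stepSub _ (2 * Q + 1) _ _ (by omega) (by omega) A2 A1 (by omega)).trans (by omega)
  have B3 : a (2 * (2 * (2 * Q) + 1) + 1) = x :=
    (h.stepSub _ (2 * (2 * Q) + 1) _ _ (by omega) (by omega) A3 A2 (by omega)).trans (by omega)
  have B4 : a (2 * (2 * (4 * Q) + 1) + 1) = 3 * x :=
    (h.stepSub _ (2 * (4 * Q) + 1) _ _ (by omega) (by omega) A4 A3 (by omega)).trans (by omega)
  have B5 : a (2 * (2 * (8 * Q) + 1) + 1) = 3 * x :=
    (h.stepSub _ (2 * (8 * Q) + 1) _ _ (by omega) (by omega) A5 A4 (by omega)).trans (by omega)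
  have F2 : a (2 * (2 * Q + 1)) = x - 1 := (h.dbl _ (by omega)).trans A1
  have F3 : a (2 * (2 * (2 * Q) + 1)) = 2 * x - 1 := (h.dbl _ (by omega)).trans A2
  have F4 : a (2 * (2 * (4 * Q) + 1)) = 3 * x - 1 := (h.dbl _ (by omega)).trans A3
  have C3 : a (2 * (2 * (2 * Q + 1)) + 1) = 1 :=
    (h.stepSub _ (2 * (2 * Q + 1)) _ _ (by omega) (by omega) B3 F2 (by omega)).trans (by omega)
  have C4 : a (2 * (2 * (2 * (2 * Q) + 1)) + 1) = x + 1 :=
    (h.stepSub _ (2 * (2 * (2 * Q) + 1)) _ _ (by omega) (by omega) B4 F3 (by omega)).trans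
      (by omega)
  have C5 : a (2 * (2 * (2 * (4 * Q) + 1)) + 1) = 1 :=
    (h.stepSub _ (2 * (2 * (4 * Q) + 1)) _ _ (by omega) (by omega) B5 F4 (by omega)).trans
      (by omega)
  have D3 : a (2 * (2 * (2 * Q + 1) + 1) + 1) = x + 1 :=
    (h.stepAdd _ (2 * (2 * Q + 1) + 1) _ _ (by omega) (by omega) C3 B2 (by omega)).trans
      (by omega)
  have D4 : a (2 * (2 * (2 * (2 * Q) + 1) + 1) + 1) = 1 :=
    (h.stepSub _ (2 * (2 * (2 * Q) + 1) + 1) _ _ (by omega) (by omega) C4 B3 (by omega)).trans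
      (by omega)
  have D5 : a (2 * (2 * (2 * (4 * Q) + 1) + 1) + 1) = 3 * x + 1 :=
    (h.stepAdd _ (2 * (2 * (4 * Q) + 1) + 1) _ _ (by omega) (by omega) C5 B4 (by omega)).trans
      (by omega)
  have K3 : a (2 * (2 * (2 * Q + 1))) = x - 1 := (h.dbl _ (by omega)).trans F2
  have K4 : a (2 * (2 * (2 * (2 * Q) + 1))) = 2 * x - 1 := (h.dbl _ (by omega)).trans F3
  have E4 : a (2 * (2 * (2 * (2 * Q + 1))) + 1) = x :=
    (h.stepAdd _ (2 * (2 * (2 * Q + 1))) _ _ (by omega) (by omega) D4 K3 (by omega)).trans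
      (by omega)
  have E5 : a (2 * (2 * (2 * (2 * (2 * Q) + 1))) + 1) = x + 2 :=
    (h.stepSub _ (2 * (2 * (2 * (2 * Q) + 1))) _ _ (by omega) (by omega) D5 K4
      (by omega)).trans (by omega)
  have G4 : a (2 * (2 * (2 * (2 * Q + 1)) + 1) + 1) = x - 1 :=
    h.stepSub _ (2 * (2 * (2 * Q + 1)) + 1) _ _ (by omega) (by omega) E4 C3 (by omega)
  have L4 : a (2 * (2 * (2 * Q + 1) + 1)) = x := (h.dbl _ (by omega)).trans B2
  have H4 : a (2 * (2 * (2 * (2 * Q + 1) + 1)) + 1) = 2 * x - 1 :=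
    (h.stepAdd _ (2 * (2 * (2 * Q + 1) + 1)) _ _ (by omega) (by omega) G4 L4
      (by omega)).trans (by omega)
  have I4 : a (2 * (2 * (2 * (2 * Q + 1) + 1) + 1) + 1) = x - 2 :=
    (h.stepSub _ (2 * (2 * (2 * Q + 1) + 1) + 1) _ _ (by omega) (by omega) H4 D3
      (by omega)).trans (by omega)
  exact ⟨⟨_, by omega, I4⟩, ⟨_, by omega, A1⟩, ⟨_, by omega, m1⟩, ⟨_, by omega, D3⟩,
    ⟨_, by omega, E5⟩, ⟨_, by omega, A2⟩, ⟨_, by omega, m2⟩⟩

theorem Rules.near (h : Rules a) (t : ℕ) (ht : 1 ≤ t) :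
    Occurs a (3 ^ t - 2) ∧ Occurs a (3 ^ t - 1) ∧ Occurs a (3 ^ t) ∧ Occurs a (3 ^ t + 1) ∧
      Occurs a (3 ^ t + 2) ∧ Occurs a (2 * 3 ^ t - 1) ∧ Occurs a (2 * 3 ^ t) := by
  obtain ⟨m1, m2⟩ := h.peak t
  obtain ⟨m3, m4⟩ := h.peak (t + 1)
  obtain ⟨m5, -⟩ := h.peak (t + 2)
  have hx : 3 ≤ 3 ^ t := by
    calc 3 = 3 ^ 1 := by norm_num
      _ ≤ 3 ^ t := Nat.pow_le_pow_right (by norm_num) ht
  have p0 := h.pow_mul 1 le_rfl (2 * t)
  have p1 := h.pow_mul 1 le_rfl (2 * t + 1)
  have p2 := h.pow_mul 1 le_rfl (2 * t + 2)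
  have p3 := h.pow_mul 1 le_rfl (2 * t + 3)
  have p4 := h.pow_mul 1 le_rfl (2 * t + 4)
  rw [one_mul, h.one] at p0 p1 p2 p3 p4
  have q1 : (2 : ℕ) ^ (2 * t + 1) = 2 * 2 ^ (2 * t) := by ring
  have q2 : (2 : ℕ) ^ (2 * t + 2) = 4 * 2 ^ (2 * t) := by ring
  have q3 : (2 : ℕ) ^ (2 * t + 3) = 8 * 2 ^ (2 * t) := by ring
  have q4 : (2 : ℕ) ^ (2 * t + 4) = 16 * 2 ^ (2 * t) := by ring
  have q5 : (2 : ℕ) ^ (2 * (t + 1) + 1) = 8 * 2 ^ (2 * t) := by ring
  have q6 : (2 : ℕ) ^ (2 * (t + 1) + 2) = 16 * 2 ^ (2 * t) := by ring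
  have q7 : (2 : ℕ) ^ (2 * (t + 2) + 1) = 32 * 2 ^ (2 * t) := by ring
  have r1 : (3 : ℕ) ^ (t + 1) = 3 * 3 ^ t := by ring
  have r2 : (3 : ℕ) ^ (t + 2) = 9 * 3 ^ t := by ring
  rw [q1] at m1 p1
  rw [q2] at m2 p2
  rw [q3] at p3
  rw [q4] at p4
  rw [q5, r1] at m3
  rw [q6, r1] at m4
  rw [q7, r2] at m5
  exact h.nearAux _ _ Nat.one_le_two_pow hx m1 m2 m3 m4 m5 p0 p1 p2 p3 p4

/-- The sequence exists, and for it: (1) `a (3 * 2 ^ k + c) = 3 * a c` for `1 ≤ c < 2 ^ k`;
(2) `a (3 * 2 ^ k - 1) = 1` for `k ≥ 1`; (3) `a n` is even if and only if `3 ∣ n`;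
(4) `a (2 ^ (2j+1) - 1) = 3 ^ j` and `a (2 ^ (2j+2) - 1) = 2 * 3 ^ j`; (5) for `j ≥ 1` the integers
`3 ^ j - 2, …, 3 ^ j + 2`, `2 * 3 ^ j - 1` and `2 * 3 ^ j` occur; (6) if `m` occurs, so does `3 m`;
(7) all positive integers occur if and only if all positive integers not divisible by 3 do. -/
theorem result : (∃ a, IsSeq a) ∧ ∀ a : ℕ → ℕ, IsSeq a →
    (∀ k c : ℕ, 1 ≤ c → c < 2 ^ k → a (3 * 2 ^ k + c) = 3 * a c) ∧
    (∀ k : ℕ, 1 ≤ k → a (3 * 2 ^ k - 1) = 1) ∧
    (∀ n : ℕ, 1 ≤ n → (Even (a n) ↔ 3 ∣ n)) ∧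
    (∀ j : ℕ, a (2 ^ (2 * j + 1) - 1) = 3 ^ j ∧ a (2 ^ (2 * j + 2) - 1) = 2 * 3 ^ j) ∧
    (∀ j : ℕ, 1 ≤ j → Occurs a (3 ^ j - 2) ∧ Occurs a (3 ^ j - 1) ∧ Occurs a (3 ^ j) ∧
      Occurs a (3 ^ j + 1) ∧ Occurs a (3 ^ j + 2) ∧ Occurs a (2 * 3 ^ j - 1) ∧
      Occurs a (2 * 3 ^ j)) ∧
    (∀ m : ℕ, Occurs a m → Occurs a (3 * m)) ∧
    ((∀ m : ℕ, 1 ≤ m → Occurs a m) ↔ ∀ m : ℕ, 1 ≤ m → ¬ 3 ∣ m → Occurs a m) := by
  refine ⟨⟨seq, seq_isSeq⟩, fun a ha => ?_⟩
  have h := ha.rules
  have hmul : ∀ m : ℕ, Occurs a m → Occurs a (3 * m) := by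
    rintro m ⟨n, hn, rfl⟩
    exact ⟨3 * 2 ^ n + n, by omega, (h.main n).2 n hn Nat.lt_two_pow_self⟩
  refine ⟨fun k c h1 h2 => (h.main k).2 c h1 h2, ?_, ?_, h.peak, h.near, hmul, ?_⟩
  · intro k hk
    have h1 := (h.main k).1 0 (by
      have : 2 ^ 1 ≤ 2 ^ k := Nat.pow_le_pow_right (by norm_num) hk
      omega)
    have h0 : 0 < 2 ^ k := by positivity
    have h2 := h.pos (3 * 2 ^ k - (2 * 0 + 1)) (by omega)
    simp only [mul_zero, zero_add] at h1 h2
    omega
  · intro n hn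
    have := h.parity n hn
    rw [Nat.even_iff, this]
    omega
  · refine ⟨fun H m hm _ => H m hm, fun H m => ?_⟩
    induction m using Nat.strong_induction_on with
    | _ m ih =>
      intro hm
      by_cases h3 : 3 ∣ m
      · obtain ⟨r, rfl⟩ := h3
        exact hmul r (ih r (by omega) (by omega))
      · exact H m hm h3

end Pool.Agent.Results.MP_4e32c3_nt.TripledCopies
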